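import Pool.Agent.R900.UG.Red

set_option autoImplicit false

/-!
Local reductions from 3-SAT to unique games must be large: the two bounds for a given formula.
-/

namespace Pool.Agent.R900.UG

open Finset Pool.Agent.H647R3.UG Pool.Agent.H573R3.SL Pool.Agent.TH522.UG Pool.Agent.TH522.US
open Pool.Agent.W888.GX Pool.Agent.TH700.UG

section
variable {n D0 d kk : ℕ} {L : ((Fin n → ZMod 2) → ℝ) →ₗ[ℝ] ℝ} {V A E I : Type} [Fintype V]
  [Fintype A] [DecidableEq A] [Fintype E]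

/-- soundness `1 - γ` -/
theorem red_gamma (c0 : ℝ) (hc0 : 0 < c0) (hL : IsPseudoExpectation D0 L)
    (hD0 : c0 * n ≤ D0) (F : I → Clause kk n)
    (hF : ∀ i, ∀ u : (Fin n → ZMod 2) → ℝ, (∀ x, (Satisfies x (F i) → u x = 0) ∧
      (¬ Satisfies x (F i) → u x = 1)) → L u = 0)
    (r γ ε : ℝ) (hr : 0 < r) (hr1 : r ≤ 1) (hγ : 0 < γ) (hγ1 : γ < 1) (hε : 0 < ε)
    (hεγ : 2 ^ 30 * (ε * Real.log (2 / r)) ≤ r * γ ^ 2)
    (s t : E → V) (π : E → Equiv.Perm A) (hd : 1 ≤ d) (hR : Represents F d ε s t π)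
    (hno : ∀ x : V → A, ((univ.filter fun e => π e (x (s e)) = x (t e)).card : ℝ) <
      (1 - γ) * Fintype.card E) :
    c0 / 2 ^ 31 * n / d < Real.log (2 / γ) * (Fintype.card V : ℝ) ^ r := by
  classical
  by_contra hcon
  push Not at hcon
  have hdR : (1 : ℝ) ≤ d := by exact_mod_cast hd
  obtain ⟨enc, P, hP, T, g, henc, hg, hviol⟩ := hR
  -- the graph is not empty
  have hE : 0 < Fintype.card E := by
    have h1 := hno (enc 0)
    have h2 : (0 : ℝ) ≤ ((univ.filter fun e => π e (enc 0 (s e)) = enc 0 (t e)).card : ℝ) :=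
      Nat.cast_nonneg _
    by_contra h3
    have h4 : Fintype.card E = 0 := by omega
    rw [h4] at h1
    simp at h1
    linarith
  obtain ⟨e0⟩ := Fintype.card_pos_iff.1 hE
  have hV : 1 ≤ Fintype.card V := Fintype.card_pos_iff.2 ⟨s e0⟩
  have hVR : (1 : ℝ) ≤ Fintype.card V := by exact_mod_cast hV
  have hVr : (1 : ℝ) ≤ (Fintype.card V : ℝ) ^ r := Real.one_le_rpow hVR hr.le
  have hl2 := Real.log_two_gt_d9
  have hlγ : Real.log 2 ≤ Real.log (2 / γ) := by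
    refine Real.log_le_log (by norm_num) ?_
    rw [le_div_iff₀ hγ]
    linarith
  have hX : (1 / 2 : ℝ) ≤ Real.log (2 / γ) * (Fintype.card V : ℝ) ^ r := by nlinarith
  have hnd : (1 / 2 : ℝ) * d ≤ c0 / 2 ^ 31 * n := by
    have h1 := hX.trans hcon
    rwa [le_div_iff₀ (by linarith)] at h1
  obtain ⟨K, hK⟩ : ∃ K : ℕ, K = ⌈2 ^ 30 * (Real.log (2 / γ) * (Fintype.card V : ℝ) ^ r)⌉₊ :=
    ⟨_, rfl⟩
  have hK1 : 2 ^ 30 * (Real.log (2 / γ) * (Fintype.card V : ℝ) ^ r) ≤ K := by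
    rw [hK]; exact Nat.le_ceil _
  have hK2 : (K : ℝ) ≤ 2 ^ 30 * (Real.log (2 / γ) * (Fintype.card V : ℝ) ^ r) + 1 := by
    rw [hK]; exact (Nat.ceil_lt_add_one (by linarith)).le
  have hKd : (K + 2) * d ≤ D0 := by
    have h1 : (((K + 2) * d : ℕ) : ℝ) ≤ D0 := by
      push_cast
      have h2 : (K : ℝ) * d ≤ (2 ^ 30 * (c0 / 2 ^ 31 * n / d) + 1) * d :=
        mul_le_mul_of_nonneg_right (hK2.trans (by linarith)) (by linarith)
      have h3 : (2 ^ 30 * (c0 / 2 ^ 31 * n / d) + 1) * d = c0 * n / 2 + d := by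
        field_simp
      have h4 : (d : ℝ) ≤ c0 * n / 2 ^ 30 := by linarith
      have h5 : 0 ≤ c0 * n := by positivity
      nlinarith
    exact_mod_cast h1
  have hdD : d ≤ D0 := le_trans (Nat.le_mul_of_pos_left d (by omega)) hKd
  have hval := value_comp hL F hF ε s t π hdD enc T g hg hviol
  obtain ⟨x, hx⟩ := core (hier_pe V A) s t π r γ ε hr hr1 hγ hγ1 hε
    (by norm_num at hεγ ⊢; exact hεγ) K (by norm_num at hK1 ⊢; exact hK1)
    (L.comp (LinearMap.funLeft ℝ ℝ enc)) (pe_comp hL enc henc hKd) hval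
  have h1 := hno x
  have h2 : ((univ.filter fun e => π e (x (s e)) = x (t e)).card : ℝ) =
      ((univ.filter fun e => π e (x (s e)) = x (t e)).card : ℝ) := rfl
  exact absurd (lt_of_le_of_lt hx h1) (lt_irrefl _)

/-- small soundness -/
theorem red_small (c0 : ℝ) (hc0 : 0 < c0) (hL : IsPseudoExpectation D0 L)
    (hD0 : c0 * n ≤ D0) (F : I → Clause kk n)
    (hF : ∀ i, ∀ u : (Fin n → ZMod 2) → ℝ, (∀ x, (Satisfies x (F i) → u x = 0) ∧
      (¬ Satisfies x (F i) → u x = 1)) → L u = 0)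
    (l x ε : ℝ) (hl0 : 0 < l) (hx : x = 24576 * ε / l) (hx1 : x ≤ 1) (hε : 0 < ε)
    (hε1 : 2 ^ 18 * ε ≤ 1)
    (s t : E → V) (π : E → Equiv.Perm A) (hd : 1 ≤ d)
    (hln : Real.exp l ≤ c0 / 2 ^ 80 * n / d) (hR : Represents F d ε s t π)
    (U : Finset V) (hU : ∀ e, s e ∈ U)
    (hno : ∀ X Y : V → A, ((univ.filter fun e => π e (X (s e)) = Y (t e)).card : ℝ) <
      Real.exp (-l) / 2 ^ 13 * Fintype.card E) :
    c0 / 2 ^ 80 * n / d < (U.card : ℝ) ^ (8 * (x * Real.log (2 / x))) := by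
  classical
  by_contra hcon
  push Not at hcon
  have hdR : (1 : ℝ) ≤ d := by exact_mod_cast hd
  obtain ⟨enc, P, hP, T, g, henc, hg, hviol⟩ := hR
  have hx0 : 0 < x := by rw [hx]; positivity
  have hlog : 0 ≤ Real.log (2 / x) := Real.log_nonneg (by rw [le_div_iff₀ hx0]; linarith)
  obtain ⟨θ, hθ⟩ : ∃ θ : ℝ, θ = 8 * (x * Real.log (2 / x)) := ⟨_, rfl⟩
  have hθ0 : 0 ≤ θ := by rw [hθ]; positivity
  rw [← hθ] at hcon
  obtain ⟨B, hB⟩ : ∃ B : ℝ, B = c0 / 2 ^ 80 * n / d := ⟨_, rfl⟩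
  rw [← hB] at hcon hln
  have hel : 1 ≤ Real.exp l := Real.one_le_exp hl0.le
  have hB1 : 1 ≤ B := hel.trans hln
  have hBd : B * d = c0 / 2 ^ 80 * n := by rw [hB]; field_simp
  -- the number of vertices
  obtain ⟨N, hN⟩ : ∃ N : ℕ, N = max U.card ⌈Real.exp l⌉₊ := ⟨_, rfl⟩
  have hN1 : U.card ≤ N := by rw [hN]; exact le_max_left _ _
  have hN2 : Real.exp l ≤ N := (Nat.le_ceil _).trans (by
    rw [hN]; exact_mod_cast le_max_right _ _)
  have hN0 : (0 : ℝ) < N := lt_of_lt_of_le (Real.exp_pos _) hN2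
  have hNθ : (N : ℝ) ^ θ ≤ 2 ^ 48 * B := by
    rcases le_total U.card ⌈Real.exp l⌉₊ with h | h
    · rw [max_eq_right h] at hN
      have h1 : (N : ℝ) ≤ 2 * Real.exp l := by
        have h2 : (⌈Real.exp l⌉₊ : ℝ) < Real.exp l + 1 := Nat.ceil_lt_add_one (Real.exp_pos _).le
        rw [hN]
        linarith
      have h2 := few_level ε l x hε hε1 hl0 hx hx1 N h1
      rw [← hθ] at h2
      refine h2.trans ?_
      exact mul_le_mul_of_nonneg_left hln (by norm_num)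
    · rw [max_eq_left h] at hN
      rw [hN]
      refine hcon.trans ?_
      linarith
  obtain ⟨K, hK⟩ : ∃ K : ℕ, K = ⌈2 ^ 20 * (N : ℝ) ^ θ⌉₊ := ⟨_, rfl⟩
  have hK1 : 2 ^ 20 * (N : ℝ) ^ θ ≤ K := by rw [hK]; exact Nat.le_ceil _
  have hK2 : (K : ℝ) ≤ 2 ^ 20 * (N : ℝ) ^ θ + 1 := by
    rw [hK]; exact (Nat.ceil_lt_add_one (by positivity)).le
  have hKd : (K + 3) * d ≤ D0 := by
    have h1 : (((K + 3) * d : ℕ) : ℝ) ≤ D0 := by
      push_cast
      have h2 : (K : ℝ) + 3 ≤ 2 ^ 71 * B := by nlinarith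
      have h3 : ((K : ℝ) + 3) * d ≤ 2 ^ 71 * B * d := mul_le_mul_of_nonneg_right h2 (by linarith)
      have h4 : 2 ^ 71 * B * d = 2 ^ 71 * (c0 / 2 ^ 80 * n) := by rw [← hBd]; ring
      have h5 : 0 ≤ c0 * n := by positivity
      rw [h4] at h3
      refine h3.trans (le_trans ?_ hD0)
      nlinarith
    exact_mod_cast h1
  have hdD : d ≤ D0 := le_trans (Nat.le_mul_of_pos_left d (by omega)) hKd
  have hval := value_comp hL F hF ε s t π hdD enc T g hg hviol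
  have hlN : l < 2 * Real.log N := by
    have h1 : l ≤ Real.log N := by
      rw [Real.le_log_iff_exp_le hN0]
      exact hN2
    linarith
  rw [hθ] at hK1
  obtain ⟨X, Y, hXY⟩ := small_core (hier_pe3 V A) (fun k L hL => tri_pe hL) s t π U hU N hN1
    ε l x hε (by linarith) hx hx1 hl0 hlN K hK1
    (L.comp (LinearMap.funLeft ℝ ℝ enc)) (pe_comp hL enc henc hKd) hval
  exact absurd (lt_of_le_of_lt hXY (hno X Y)) (lt_irrefl _)

end

end Pool.Agent.R900.UG
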