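import Pool.Agent.R900.UG.Small
import Pool.Agent.TH843.LR.Form
import Pool.Agent.TH522.UG.Cond

set_option autoImplicit false

/-!
Local reductions from 3-SAT to unique games.
-/

namespace Pool.Agent.R900.UG

open Finset Pool.Agent.H647R3.UG Pool.Agent.H573R3.SL Pool.Agent.TH522.UG Pool.Agent.TH522.US
open Pool.Agent.W888.GX Pool.Agent.TH700.UG

section
variable {V A : Type} [Fintype V] [DecidableEq V] [Fintype A] [DecidableEq A]

/-- triangle inequality for pseudo-expectations -/
theorem tri_pe {k : ℕ} {L : ((V → A) → ℝ) →ₗ[ℝ] ℝ} (hL : IsPE (k + 3) L) : Tri L := by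
  intro u u' v π π'
  have h1 : 0 ≤ L (((sat u u' (π.trans π'.symm) + fun _ => 1) - sat u v π) - sat u' v π') := by
    set f := ((sat u u' (π.trans π'.symm) + fun _ => 1) - sat u v π) - sat u' v π' with hf
    have hdep : ∀ x y : V → A, (∀ w ∈ ({u, u', v} : Finset V), x w = y w) → f x = f y := by
      intro x y h
      simp only [hf, Pi.sub_apply, Pi.add_apply]
      unfold sat
      rw [h u (by simp), h u' (by simp), h v (by simp)]
    have hnn : ∀ x, 0 ≤ f x := by
      intro x
      simp only [hf, Pi.sub_apply, Pi.add_apply]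
      by_cases h2 : π (x u) = x v
      · by_cases h3 : π' (x u') = x v
        · have h4 : (π.trans π'.symm) (x u) = x u' := by
            show π'.symm (π (x u)) = x u'
            rw [h2, ← h3, Equiv.symm_apply_apply]
          have e1 : sat u u' (π.trans π'.symm) x = 1 := if_pos h4
          have e2 : sat u v π x = 1 := if_pos h2
          have e3 : sat u' v π' x = 1 := if_pos h3
          rw [e1, e2, e3]
          norm_num
        · have e3 : sat u' v π' x = 0 := if_neg h3
          have e1 := Mx.sat_nonneg u u' (π.trans π'.symm) x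
          have e2 := Mx.sat_le_one u v π x
          rw [e3]
          linarith
      · have e2 : sat u v π x = 0 := if_neg h2
        have e1 := Mx.sat_nonneg u u' (π.trans π'.symm) x
        have e3 := Mx.sat_le_one u' v π' x
        rw [e2]
        linarith
    have h2 := hL.sq (fun x => Real.sqrt (f x)) (Submodule.subset_span
      ⟨{u, u', v}, card_le_three.trans (by omega), fun x y hxy =>
        congrArg Real.sqrt (hdep x y hxy)⟩)
    have h3 : (fun x => Real.sqrt (f x) * Real.sqrt (f x)) = f := by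
      funext x
      exact Real.mul_self_sqrt (hnn x)
    rwa [h3] at h2
  rw [map_sub, map_sub, map_add, hL.one] at h1
  linarith

theorem hier_pe3 (V A : Type) [Fintype V] [DecidableEq V] [Fintype A] [DecidableEq A] :
    Hier (V := V) (A := A) (fun k L => IsPE (k + 3) L) where
  fct k L hL := (hier_pe V A).fct (k + 1) L hL
  step k L hL u a ha := (hier_pe V A).step (k + 1) L hL u a ha
  mono k L hL := (hier_pe V A).mono (k + 1) L hL
  avg k L hL u v w π := (hier_pe V A).avg (k + 1) L hL u v w π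

end

section
variable {n D0 d kk : ℕ} {L : ((Fin n → ZMod 2) → ℝ) →ₗ[ℝ] ℝ} {V A E I : Type} [Fintype V]
  [DecidableEq V] [Fintype A] [DecidableEq A] [Fintype E]

omit [Fintype V] [DecidableEq V] [Fintype A] in
/-- the value of the composed functional -/
theorem value_comp (hL : IsPseudoExpectation D0 L) (F : I → Clause kk n)
    (hF : ∀ i, ∀ u : (Fin n → ZMod 2) → ℝ, (∀ x, (Satisfies x (F i) → u x = 0) ∧
      (¬ Satisfies x (F i) → u x = 1)) → L u = 0)
    (ε : ℝ) (s t : E → V) (π : E → Equiv.Perm A) (hd : d ≤ D0)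
    (enc : (Fin n → ZMod 2) → V → A) {P : Type} [Fintype P] (T : P → Finset (Fin n))
    (g : P → (Fin n → ZMod 2) → ℝ)
    (hg : ∀ p, (T p).card ≤ d ∧ Reads (g p) (T p) ∧ ∀ x, SatOn F (T p) x → 0 ≤ g p x)
    (hviol : ∀ x, (violated s t π (enc x) : ℝ) = ε * Fintype.card E - ∑ p, g p x) :
    (1 - ε) * (Fintype.card E : ℝ) ≤
      ∑ e, (L.comp (LinearMap.funLeft ℝ ℝ enc)) (sat (s e) (t e) (π e)) := by
  have h1 : ∑ e, (L.comp (LinearMap.funLeft ℝ ℝ enc)) (sat (s e) (t e) (π e)) =
      L (fun x => ∑ e, sat (s e) (t e) (π e) (enc x)) := by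
    have h2 : (fun x => ∑ e, sat (s e) (t e) (π e) (enc x)) =
        ∑ e, (LinearMap.funLeft ℝ ℝ enc) (sat (s e) (t e) (π e)) := by
      funext x
      rw [Finset.sum_apply]
      rfl
    rw [h2, map_sum]
    rfl
  have h2 : (fun x => ∑ e, sat (s e) (t e) (π e) (enc x)) =
      ((1 - ε) * (Fintype.card E : ℝ)) • (fun _ : Fin n → ZMod 2 => (1 : ℝ)) + ∑ p, g p := by
    funext x
    have h3 : ∑ e, sat (s e) (t e) (π e) (enc x) + violated s t π (enc x) = Fintype.card E := by
      unfold violated sat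
      rw [Finset.sum_boole]
      have h4 := Finset.card_filter_add_card_filter_not (s := (univ : Finset E))
        (p := fun e => π e (enc x (s e)) = enc x (t e))
      rw [card_univ] at h4
      exact_mod_cast h4
    have h4 := hviol x
    rw [Pi.add_apply, Pi.smul_apply, Finset.sum_apply, smul_eq_mul, mul_one]
    linarith
  rw [h1, h2, map_add, map_smul, hL.1, map_sum, smul_eq_mul, mul_one]
  have h3 : 0 ≤ ∑ p, L (g p) := Finset.sum_nonneg fun p _ =>
    pe_local hL F hF (T p) ((hg p).1.trans hd) (g p) (hg p).2.1 (hg p).2.2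
  linarith

end

/-- an upper bound for the exponent -/
theorem xlog_le {x : ℝ} (hx : 0 < x) : x * Real.log (2 / x) ≤ 2 := by
  have h1 : Real.log (2 / x) ≤ 2 / x - 1 := Real.log_le_sub_one_of_pos (by positivity)
  have h2 : x * Real.log (2 / x) ≤ x * (2 / x - 1) := mul_le_mul_of_nonneg_left h1 hx.le
  have h3 : x * (2 / x - 1) = 2 - x := by field_simp
  linarith

/-- the level needed for few vertices -/
theorem few_level (ε l x : ℝ) (hε : 0 < ε) (hε1 : 2 ^ 18 * ε ≤ 1) (hl : 0 < l)
    (hx : x = 24576 * ε / l) (hx1 : x ≤ 1) (N : ℕ) (hN : (N : ℝ) ≤ 2 * Real.exp l) :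
    (N : ℝ) ^ (8 * (x * Real.log (2 / x))) ≤ 2 ^ 48 * Real.exp l := by
  have hx0 : 0 < x := by rw [hx]; positivity
  have hlog : 0 ≤ Real.log (2 / x) := Real.log_nonneg (by rw [le_div_iff₀ hx0]; linarith)
  obtain ⟨τ, hτ⟩ : ∃ τ : ℝ, τ = 24576 * ε := ⟨_, rfl⟩
  have hτ0 : 0 < τ := by rw [hτ]; positivity
  have hτ1 : 8 * τ ≤ 1 := by rw [hτ]; linarith
  have hxl : x * l = τ := by rw [hx, hτ]; field_simp
  have hθ := xlog_le hx0
  have hθ0 : 0 ≤ x * Real.log (2 / x) := mul_nonneg hx0.le hlog
  have h1 : (N : ℝ) ^ (8 * (x * Real.log (2 / x))) ≤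
      (2 * Real.exp l) ^ (8 * (x * Real.log (2 / x))) :=
    Real.rpow_le_rpow (Nat.cast_nonneg _) hN (by linarith)
  have h2 : (2 * Real.exp l) ^ (8 * (x * Real.log (2 / x))) =
      2 ^ (8 * (x * Real.log (2 / x))) * Real.exp (l * (8 * (x * Real.log (2 / x)))) := by
    rw [Real.mul_rpow (by norm_num) (Real.exp_pos _).le, ← Real.exp_mul]
  have h3 : (2 : ℝ) ^ (8 * (x * Real.log (2 / x))) ≤ 2 ^ (16 : ℝ) :=
    Real.rpow_le_rpow_of_exponent_le (by norm_num) (by linarith)
  have h4 : l * (8 * (x * Real.log (2 / x))) ≤ 16 + l := by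
    have e1 : l * (8 * (x * Real.log (2 / x))) = 8 * (τ * Real.log (2 / x)) := by
      rw [← hxl]; ring
    have e2 : Real.log (2 / x) = Real.log (2 / τ) + Real.log l := by
      rw [← Real.log_mul (by positivity) hl.ne']
      congr 1
      rw [← hxl]
      field_simp
    have e3 := xlog_le hτ0
    have e4 : 8 * τ * Real.log l ≤ l := by
      have e5 : Real.log l ≤ l := by
        have := Real.log_le_sub_one_of_pos hl
        linarith
      by_cases h : 0 ≤ Real.log l
      · calc 8 * τ * Real.log l ≤ 1 * Real.log l := mul_le_mul_of_nonneg_right hτ1 h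
          _ ≤ l := by linarith
      · push Not at h
        have : 8 * τ * Real.log l ≤ 0 := mul_nonpos_of_nonneg_of_nonpos (by positivity) h.le
        linarith
    rw [e1, e2]
    nlinarith
  have h5 : Real.exp (l * (8 * (x * Real.log (2 / x)))) ≤ 2 ^ 32 * Real.exp l := by
    refine (Real.exp_le_exp.2 h4).trans ?_
    rw [Real.exp_add]
    refine mul_le_mul_of_nonneg_right ?_ (Real.exp_pos _).le
    have e1 : Real.exp 16 = Real.exp 1 ^ 16 := by rw [← Real.exp_nat_mul]; norm_num
    rw [e1]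
    have e2 : Real.exp 1 ≤ 4 := by
      have := Real.exp_one_lt_d9
      linarith
    calc Real.exp 1 ^ 16 ≤ 4 ^ 16 := pow_le_pow_left₀ (Real.exp_pos _).le e2 16
      _ = 2 ^ 32 := by norm_num
  rw [h2] at h1
  refine h1.trans ?_
  have h6 : (2 : ℝ) ^ (16 : ℝ) = 2 ^ 16 := by
    rw [show (16 : ℝ) = ((16 : ℕ) : ℝ) by norm_num, Real.rpow_natCast]
  rw [h6] at h3
  calc 2 ^ (8 * (x * Real.log (2 / x))) * Real.exp (l * (8 * (x * Real.log (2 / x)))) ≤
        2 ^ 16 * (2 ^ 32 * Real.exp l) := mul_le_mul h3 h5 (Real.exp_pos _).le (by norm_num)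
    _ = _ := by ring

end Pool.Agent.R900.UG
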