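import Pool.Agent.TH522.US.Round
import Pool.Agent.TH522.DG.Main
import Pool.Agent.TH522.UG.Mixed

set_option autoImplicit false

/-!
Rounding of the hierarchies for unique games in the case of small soundness.
-/

namespace Pool.Agent.R900.UG

open Finset Pool.Agent.H647R3.UG Pool.Agent.H573R3.SL Pool.Agent.TH522.UG Pool.Agent.TH522.US
open Pool.Agent.TH522.DG (IsP gf rl two_sided)

section
variable {V A : Type} [Fintype V] [DecidableEq V] [Fintype A] [DecidableEq A]

/-- triangle inequality for the solutions of the mixed hierarchy -/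
theorem tri_mixed {k : ℕ} {L : ((V → A) → ℝ) →ₗ[ℝ] ℝ} (hL : Mixed (k + 1) L) : Tri L := by
  intro u u' v π π'
  have h1 : 0 ≤ L (((sat u u' (π.trans π'.symm) + fun _ => 1) - sat u v π) - sat u' v π') := by
    refine hL.junta {u, u', v} (card_le_three.trans (by omega)) _ ?_ ?_
    · intro x y h
      simp only [Pi.sub_apply, Pi.add_apply]
      unfold sat
      rw [h u (by simp), h u' (by simp), h v (by simp)]
    · intro x
      simp only [Pi.sub_apply, Pi.add_apply]
      by_cases h2 : π (x u) = x v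
      · by_cases h3 : π' (x u') = x v
        · have h4 : (π.trans π'.symm) (x u) = x u' := by
            show π'.symm (π (x u)) = x u'
            rw [h2, ← h3, Equiv.symm_apply_apply]
          have e1 : sat u u' (π.trans π'.symm) x = 1 := if_pos h4
          have e2 : sat u v π x = 1 := if_pos h2
          have e3 : sat u' v π' x = 1 := if_pos h3
          rw [e1, e2, e3]
          norm_num
        · have e3 : sat u' v π' x = 0 := if_neg h3
          have e1 := Mx.sat_nonneg u u' (π.trans π'.symm) x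
          have e2 := Mx.sat_le_one u v π x
          rw [e3]
          linarith
      · have e2 : sat u v π x = 0 := if_neg h2
        have e1 := Mx.sat_nonneg u u' (π.trans π'.symm) x
        have e3 := Mx.sat_le_one u' v π' x
        rw [e2]
        linarith
  rw [map_sub, map_sub, map_add, hL.one] at h1
  linarith

theorem hier_mixed1 (V A : Type) [Fintype V] [DecidableEq V] [Fintype A] [DecidableEq A] :
    Hier (V := V) (A := A) (fun k L => Mixed (k + 1) L) where
  fct k L hL := (hier_mixed V A).fct (k + 1) L hL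
  step k L hL u a ha := (hier_mixed V A).step (k + 1) L hL u a ha
  mono k L hL := (hier_mixed V A).mono (k + 1) L hL
  avg k L hL u v w π := (hier_mixed V A).avg (k + 1) L hL u v w π

end

/-- the numbers -/
theorem numk (n : ℕ) (ε l x : ℝ) (hn : 0 < n) (hε : 0 < ε) (hε1 : 49152 * ε ≤ 1)
    (hx : x = 24576 * ε / l) (hx1 : x ≤ 1) (hl0 : 0 < l) (hl : l < 2 * Real.log n) (k : ℕ)
    (hk : 2 ^ 20 * (n : ℝ) ^ (8 * (x * Real.log (2 / x))) ≤ k) :
    2 ≤ k * ((1 / 32) ^ 2 / 64 * (Real.exp (-(4 * (24576 * ε) *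
      (Real.log (1 / x) / (l / (2 * Real.log n)) + 1))) * (n : ℝ) ^ (-x))) := by
  have hn0 : (0 : ℝ) < n := by exact_mod_cast hn
  have hx0 : 0 < x := by rw [hx]; positivity
  have hln : 0 < Real.log n := by linarith
  have hτ : 24576 * ε = x * l := by rw [hx]; field_simp
  have hlogx : 0 ≤ Real.log (1 / x) := Real.log_nonneg (by rw [le_div_iff₀ hx0]; linarith)
  have hlog2 : Real.log (2 / x) = Real.log 2 + Real.log (1 / x) := by
    rw [← Real.log_mul (by norm_num) (by positivity)]
    congr 1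
    ring
  have hl2 := Real.log_two_gt_d9
  have e1 : 4 * (24576 * ε) * (Real.log (1 / x) / (l / (2 * Real.log n)) + 1) =
      8 * (x * Real.log (1 / x)) * Real.log n + 4 * (24576 * ε) := by
    rw [hτ]
    field_simp
    ring
  rw [e1, Real.rpow_def_of_pos hn0]
  rw [Real.rpow_def_of_pos hn0] at hk
  have hexp2 : (7.4 : ℝ)⁻¹ ≤ Real.exp (-2) := by
    have h1 : Real.exp 1 < 2.7182818286 := Real.exp_one_lt_d9
    have h2 : Real.exp 2 = Real.exp 1 * Real.exp 1 := by
      rw [← Real.exp_add]; norm_num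
    have h3 : Real.exp 2 ≤ 7.4 := by
      rw [h2]
      have h4 := Real.exp_pos 1
      nlinarith
    rw [Real.exp_neg]
    exact inv_anti₀ (Real.exp_pos 2) h3
  have h1 : 2 ^ 20 * Real.exp (Real.log n * (8 * (x * Real.log (2 / x)))) *
      ((1 / 32) ^ 2 / 64 * (Real.exp (-(8 * (x * Real.log (1 / x)) * Real.log n +
        4 * (24576 * ε))) * Real.exp (Real.log n * -x))) ≤
      k * ((1 / 32) ^ 2 / 64 * (Real.exp (-(8 * (x * Real.log (1 / x)) * Real.log n +
        4 * (24576 * ε))) * Real.exp (Real.log n * -x))) :=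
    mul_le_mul_of_nonneg_right hk (by positivity)
  refine le_trans ?_ h1
  have h2 : 2 ^ 20 * Real.exp (Real.log n * (8 * (x * Real.log (2 / x)))) *
      ((1 / 32) ^ 2 / 64 * (Real.exp (-(8 * (x * Real.log (1 / x)) * Real.log n +
        4 * (24576 * ε))) * Real.exp (Real.log n * -x))) =
      16 * Real.exp (Real.log n * (8 * (x * Real.log (2 / x))) +
        (-(8 * (x * Real.log (1 / x)) * Real.log n + 4 * (24576 * ε)) + Real.log n * -x)) := by
    rw [Real.exp_add (Real.log n * (8 * (x * Real.log (2 / x)))), Real.exp_add (-(8 * _ * _ + _))]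
    ring
  rw [h2]
  have h3 : -2 ≤ Real.log n * (8 * (x * Real.log (2 / x))) +
        (-(8 * (x * Real.log (1 / x)) * Real.log n + 4 * (24576 * ε)) + Real.log n * -x) := by
    rw [hlog2]
    have h4 : 0 ≤ x * Real.log n := by positivity
    have h5 : 0 ≤ (8 * Real.log 2 - 1) * (x * Real.log n) := mul_nonneg (by linarith) h4
    nlinarith
  have h4 := Real.exp_le_exp.2 h3
  have h5 : (2 : ℝ) ≤ 16 * 7.4⁻¹ := by norm_num
  linarith

/-- Rounding with small soundness for an abstract hierarchy. -/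
theorem small_core {V A E : Type} [Fintype V] [DecidableEq V] [Fintype A] [DecidableEq A]
    [Fintype E] {Q : ℕ → (((V → A) → ℝ) →ₗ[ℝ] ℝ) → Prop} (hQ : Hier Q)
    (hT : ∀ k L, Q k L → Tri L)
    (s t : E → V) (π : E → Equiv.Perm A) (U : Finset V) (hU : ∀ e, s e ∈ U) (n : ℕ)
    (hn : U.card ≤ n) (ε l x : ℝ) (hε : 0 < ε) (hε1 : 49152 * ε ≤ 1)
    (hx : x = 24576 * ε / l) (hx1 : x ≤ 1) (hl0 : 0 < l) (hl : l < 2 * Real.log n) (k : ℕ)
    (hk : 2 ^ 20 * (n : ℝ) ^ (8 * (x * Real.log (2 / x))) ≤ k)
    (L : ((V → A) → ℝ) →ₗ[ℝ] ℝ) (hL : Q k L)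
    (hval : (1 - ε) * (Fintype.card E : ℝ) ≤ ∑ e, L (sat (s e) (t e) (π e))) :
    ∃ (X Y : V → A), Real.exp (-l) / 2 ^ 13 * (Fintype.card E : ℝ) ≤
      ((univ.filter fun e => π e (X (s e)) = Y (t e)).card : ℝ) := by
  have hfc := hQ.fct _ _ hL
  obtain ⟨x0⟩ : Nonempty (V → A) := by
    rcases isEmpty_or_nonempty V with h | ⟨⟨v⟩⟩
    · exact ⟨fun v => (h.false v).elim⟩
    · have h1 : Nonempty A := by
        by_contra hcon
        rw [not_nonempty_iff] at hcon
        have := (hfc.law v v).one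
        rw [Finset.univ_eq_empty, Finset.sum_empty] at this
        exact zero_ne_one this
      exact ⟨fun _ => h1.some⟩
  rcases isEmpty_or_nonempty E with hE | ⟨⟨e0⟩⟩
  · exact ⟨x0, x0, by simp⟩
  have hA : Nonempty A := ⟨x0 (s e0)⟩
  have hE0 : (0 : ℝ) < Fintype.card E := by exact_mod_cast Fintype.card_pos_iff.2 ⟨e0⟩
  have hn0 : 0 < n := lt_of_lt_of_le (card_pos.2 ⟨s e0, hU e0⟩) hn
  have hn0' : (0 : ℝ) < n := by exact_mod_cast hn0
  have hln : 0 < Real.log n := by linarith
  have hx0 : 0 < x := by rw [hx]; positivity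
  -- good edges
  set ω : E → ℝ := fun e => if 1 - L (sat (s e) (t e) (π e)) ≤ 2 * ε then (1 : ℝ) else 0 with hωd
  have hω : ∀ e, 0 ≤ ω e := fun e => by simp only [hωd]; split_ifs <;> norm_num
  have hgood : (Fintype.card E : ℝ) / 2 ≤ ∑ e, ω e := by
    have h1 : ∀ e, 2 * ε * (1 - ω e) ≤ 1 - L (sat (s e) (t e) (π e)) := by
      intro e
      simp only [hωd]
      split_ifs with h
      · have := hfc.sat1 (s e) (t e) (π e)
        linarith
      · push Not at h
        linarith
    have h2 := sum_le_sum fun e (_ : e ∈ (univ : Finset E)) => h1 e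
    rw [← mul_sum, sum_sub_distrib, sum_sub_distrib, sum_const, card_univ, nsmul_eq_mul,
      mul_one] at h2
    have h3 : 2 * ε * ((Fintype.card E : ℝ) - ∑ e, ω e) ≤ ε * Fintype.card E := by linarith
    have h4 : 2 * ((Fintype.card E : ℝ) - ∑ e, ω e) ≤ Fintype.card E := by
      by_contra hcon
      push Not at hcon
      nlinarith
    linarith
  have hD : 0 < ∑ e, ω e := lt_of_lt_of_le (by positivity) hgood
  have hnk := numk n ε l x hn0 hε hε1 hx hx1 hl0 hl k hk
  have hκ0 : 0 < l / (2 * Real.log n) := by positivity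
  have hκ1 : l / (2 * Real.log n) < 1 := by
    rw [div_lt_one (by positivity)]
    exact hl
  have hβe : (n : ℝ) ^ (-(2 * (l / (2 * Real.log n)))) = Real.exp (-l) := by
    rw [Real.rpow_def_of_pos hn0']
    congr 1
    field_simp
  have hpart : ∀ U0 : Finset V, U0 ⊆ U → (∑ e, ω e) / 2 ≤
      bil (K2 s t ω) (fun v => if v ∈ U0 then 1 else 0) (fun v => if v ∈ U0 then 1 else 0) →
      ∃ (p : V → A → ℝ) (S : Finset V), IsP p ∧ S.Nonempty ∧ S ⊆ U0 ∧
        Real.exp (-l) / 1024 * ∑ u ∈ S, ds s ω u ≤ gf s t (fun e a => π e a) ω p S := by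
    intro U0 hU0 hbil
    obtain ⟨X, S, hS, hSU, hSb⟩ := part_round hQ hT s t π ω hω hD n hn0 (l / (2 * Real.log n)) x
      (2 * ε) (24576 * ε) hκ0 hκ1 hx0 hx1 (by positivity) (by linarith) (by linarith) k hnk L hL
      (fun e he => by
        by_contra hcon
        have h1 : ω e = 0 := by
          simp only [hωd]
          rw [if_neg hcon]
        linarith) U0 ((card_le_card hU0).trans hn) hbil
    rw [hβe] at hSb
    refine ⟨fun v a => if a = X v then 1 else 0, S, ⟨fun v a => by
      beta_reduce; split_ifs <;> norm_num, fun v => by simp⟩, hS, hSU, hSb.trans (le_of_eq ?_)⟩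
    unfold gf
    congr 1
    funext e e'
    unfold rl
    have h1 : (∑ a, ∑ b, if (π e) a = (π e') b then
        (if a = X (s e) then (1 : ℝ) else 0) * (if b = X (s e') then 1 else 0) else 0) =
        if π e (X (s e)) = π e' (X (s e')) then 1 else 0 := by
      rw [sum_eq_single (X (s e))]
      · rw [sum_eq_single (X (s e'))]
        · simp
        · intro b _ hb
          simp [hb]
        · intro h; exact absurd (mem_univ _) h
      · intro a _ ha
        refine sum_eq_zero fun b _ => ?_
        simp [ha]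
      · intro h; exact absurd (mem_univ _) h
    beta_reduce
    rw [h1]
    by_cases h2 : s e ∈ S ∧ s e' ∈ S
    · by_cases h3 : π e (X (s e)) = π e' (X (s e'))
      · rw [if_pos ⟨h2, h3⟩, if_pos h2, if_pos h3, one_mul]
      · rw [if_neg fun h => h3 h.2, if_neg h3, mul_zero]
    · rw [if_neg fun h => h2 h.1, if_neg h2, zero_mul]
  obtain ⟨X, Y, hXY⟩ := two_sided s t (fun e a => π e a) ω hω (Real.exp (-l) / 1024)
    (by positivity) U hU hpart (fun _ a => if a = x0 (s e0) then 1 else 0)
    ⟨fun _ a => by beta_reduce; split_ifs <;> norm_num, fun _ => by simp⟩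
  refine ⟨X, Y, ?_⟩
  have h1 : ∑ e, ω e * (if π e (X (s e)) = Y (t e) then 1 else 0) ≤
      ((univ.filter fun e => π e (X (s e)) = Y (t e)).card : ℝ) := by
    rw [card_filter]
    push_cast
    refine sum_le_sum fun e _ => ?_
    simp only [hωd]
    split_ifs <;> norm_num
  refine le_trans ?_ (hXY.trans h1)
  have h2 : Real.exp (-l) / 1024 * ((Fintype.card E : ℝ) / 2) / 4 ≤
      Real.exp (-l) / 1024 * (∑ e, ω e) / 4 := by
    have := mul_le_mul_of_nonneg_left hgood (show (0 : ℝ) ≤ Real.exp (-l) / 1024 by positivity)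
    linarith
  refine le_trans (le_of_eq ?_) h2
  ring

end Pool.Agent.R900.UG
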